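import Mathlib
import Pool.Agent.TH719.HHq.Fields2

set_option autoImplicit false

namespace Pool.Agent.Results.MP_22a066_ag.CharP

open MvPolynomial

/-- the homogeneous ideal of the point of projective `n`-space with homogeneous coordinates `q` -/
noncomputable def pointIdeal {k : Type*} [Field k] {n : ℕ} (q : Fin (n + 1) → k) :
    Ideal (MvPolynomial (Fin (n + 1)) k) :=
  Ideal.span (Set.range (fun jl : Fin (n + 1) × Fin (n + 1) =>
    (X jl.1 * C (q jl.2) - X jl.2 * C (q jl.1) : MvPolynomial (Fin (n + 1)) k)))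

/-- the ideal generated by the variables -/
noncomputable def maxIdeal (k : Type*) [Field k] (n : ℕ) :
    Ideal (MvPolynomial (Fin (n + 1)) k) :=
  Ideal.span (Set.range (fun j : Fin (n + 1) => (X j : MvPolynomial (Fin (n + 1)) k)))

/-- **The Harbourne-Huneke containment in positive characteristic for `t ≤ n + 1`, and
approximations to it for all `t`.** Let `k` be a field of characteristic `p > 0`
(any prime `p`), `n ≥ 2`, `P 0, …, P (s-1)` points of projective `n`-space over `k`,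
`w 0, …, w (s-1)` nonnegative integers, `J = ⋂ I(P i)^(w i)`. Then for every `t ≥ 1`:

* `⋂ I(P i)^(t (w i + n - 1)) ⊆ M^t J^t` if `t ≤ n + 1`;
* `⋂ I(P i)^(t (w i + n - 1)) ⊆ M^(t + 1 - c) J^t` if `t ≤ n c + 1`, `c ≥ 1`;
* `M^c · ⋂ I(P i)^(t (w i + n - 1)) ⊆ M^t J^t` if `t ≤ n (c + 1) + 1`;
* `⋂ I(P i)^(t (w i + n - 1) + c) ⊆ M^t J^t` if `t ≤ p c` or `t ≤ (c + 1) (n + 1)`;
* every form of degree `d` in `⋂ I(P i)^(t (w i + n - 1) + c)` lies in `M^t J^t` if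
  `t ≤ n (t - (d mod t)) + c (n + 1) + 1` (in particular if `t` divides `d`), or if
  `d < p (w i + n - 1) (t - (d mod t))` for all `i`. -/
theorem result (k : Type*) [Field k] (p : ℕ) [Fact p.Prime] [CharP k p]
    (n : ℕ) (hn : 2 ≤ n) (s : ℕ) (hs : 0 < s)
    (P : Fin s → Fin (n + 1) → k) (hP : ∀ i, P i ≠ 0) (w : Fin s → ℕ) (t : ℕ) (ht : 0 < t) :
    (t ≤ n + 1 → (⨅ i : Fin s, pointIdeal (P i) ^ (t * (w i + n - 1))) ≤
      maxIdeal k n ^ t * (⨅ i : Fin s, pointIdeal (P i) ^ (w i)) ^ t) ∧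
    (∀ c : ℕ, 1 ≤ c → t ≤ n * c + 1 → (⨅ i : Fin s, pointIdeal (P i) ^ (t * (w i + n - 1))) ≤
      maxIdeal k n ^ (t + 1 - c) * (⨅ i : Fin s, pointIdeal (P i) ^ (w i)) ^ t) ∧
    (∀ c : ℕ, t ≤ n * (c + 1) + 1 →
      maxIdeal k n ^ c * (⨅ i : Fin s, pointIdeal (P i) ^ (t * (w i + n - 1))) ≤
        maxIdeal k n ^ t * (⨅ i : Fin s, pointIdeal (P i) ^ (w i)) ^ t) ∧
    (∀ c : ℕ, (t ≤ p * c ∨ t ≤ (c + 1) * (n + 1)) →
      (⨅ i : Fin s, pointIdeal (P i) ^ (t * (w i + n - 1) + c)) ≤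
      maxIdeal k n ^ t * (⨅ i : Fin s, pointIdeal (P i) ^ (w i)) ^ t) ∧
    (∀ (c d : ℕ) (F : MvPolynomial (Fin (n + 1)) k), F.IsHomogeneous d →
      F ∈ (⨅ i : Fin s, pointIdeal (P i) ^ (t * (w i + n - 1) + c)) →
      (t ≤ n * (t - d % t) + c * (n + 1) + 1 ∨ ∀ i, d < p * (w i + n - 1) * (t - d % t)) →
      F ∈ maxIdeal k n ^ t * (⨅ i : Fin s, pointIdeal (P i) ^ (w i)) ^ t) := by
  have h2 : maxIdeal k n = Pool.Agent.TH719.HHq.mxI k n := rfl
  have h1 : ∀ i, pointIdeal (P i) = Pool.Agent.TH719.HHq.ptI (P i) := fun i => rfl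
  simp only [h1, h2]
  refine ⟨?_, ?_, ?_, ?_, ?_⟩
  · intro htn
    have := Pool.Agent.TH719.HHq.f_all p hn hs ht le_rfl (by omega : t ≤ n * 1 + 1) P hP w
    rwa [Nat.add_sub_cancel] at this
  · intro c hc htc
    exact Pool.Agent.TH719.HHq.f_all p hn hs ht hc htc P hP w
  · intro c htc
    exact Pool.Agent.TH719.HHq.f_mul p hn hs ht htc P hP w
  · rintro c (htc | htc)
    · exact Pool.Agent.TH719.HHq.f_extra p hn hs ht htc P hP w
    · exact Pool.Agent.TH719.HHq.f_extraT p hn hs ht htc P hP w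
  · intro c d F hF hFm h
    exact Pool.Agent.TH719.HHq.f_formT p hn hs ht P hP w hF hFm h

end Pool.Agent.Results.MP_22a066_ag.CharP
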