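import Mathlib
import Pool.Agent.TH308.HHp.Struct

set_option autoImplicit false

namespace Pool.Agent.Results.MP_22a066_ag.ExceptionalForms

open MvPolynomial

/-- the homogeneous ideal of the point of projective `n`-space with homogeneous coordinates `q` -/
noncomputable def pointIdeal {k : Type*} [Field k] {n : ℕ} (q : Fin (n + 1) → k) :
    Ideal (MvPolynomial (Fin (n + 1)) k) :=
  Ideal.span (Set.range (fun jl : Fin (n + 1) × Fin (n + 1) =>
    (X jl.1 * C (q jl.2) - X jl.2 * C (q jl.1) : MvPolynomial (Fin (n + 1)) k)))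

/-- **The Harbourne-Huneke containment for all powers `t = p ^ e` of the characteristic, up to
explicit exceptional forms.** Let `k` be an infinite perfect field of characteristic `p > 0` and
`n ≥ 2`, and let `F ≠ 0` be a form of degree `d` in `⋂ I(P i)^(t (w i + n - 1))`.
(1) If `F` is squarefree, then `F ∈ M^t (⋂ I(P i)^(w i))^t`.
(2) In general `F ∈ M^t (⋂ I(P i)^(w i))^t`, unless `F = H^t G` where `G` is not divisible by the
`t`-th power of a prime, `G` divides `ψ^(t-1)` for some nonzero form `ψ` of degree `d mod t`, and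
`t n ≤ deg G ≤ (t - 1) (d mod t)`. -/
theorem result (k : Type*) [Field k] [Infinite k] (p : ℕ) [Fact p.Prime] [CharP k p]
    [PerfectRing k p] (n : ℕ) (hn : 2 ≤ n) (e : ℕ) (s : ℕ) (hs : 0 < s)
    (P : Fin s → Fin (n + 1) → k) (hP : ∀ i, P i ≠ 0) (w : Fin s → ℕ) (d : ℕ)
    (F : MvPolynomial (Fin (n + 1)) k) (hF0 : F ≠ 0) (hFd : F.IsHomogeneous d)
    (hF : F ∈ ⨅ i : Fin s, pointIdeal (P i) ^ (p ^ e * (w i + n - 1))) :
    (Squarefree F → F ∈
      (Ideal.span (Set.range (fun j : Fin (n + 1) => (X j : MvPolynomial (Fin (n + 1)) k)))) ^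
        (p ^ e) * (⨅ i : Fin s, pointIdeal (P i) ^ (w i)) ^ (p ^ e)) ∧
    (F ∈
      (Ideal.span (Set.range (fun j : Fin (n + 1) => (X j : MvPolynomial (Fin (n + 1)) k)))) ^
        (p ^ e) * (⨅ i : Fin s, pointIdeal (P i) ^ (w i)) ^ (p ^ e) ∨
    ∃ H G ψ : MvPolynomial (Fin (n + 1)) k, F = H ^ (p ^ e) * G ∧
      (∀ π, Prime π → ¬ π ^ (p ^ e) ∣ G) ∧ ψ ≠ 0 ∧ ψ.IsHomogeneous (d % p ^ e) ∧
      G ∣ ψ ^ (p ^ e - 1) ∧ p ^ e * n ≤ G.totalDegree ∧
      G.totalDegree ≤ (p ^ e - 1) * (d % p ^ e)) := by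
  have h1 : ∀ i, pointIdeal (P i) = Pool.Agent.H737R3.linI (P i) :=
    fun i => Pool.Agent.H737R3.span_eq_linI (hP i)
  simp only [h1] at hF ⊢
  rw [Submodule.mem_iInf] at hF
  have hFm : ∀ i, F ∈ Pool.Agent.Chud.mI (P i) ^ (p ^ e * (w i + n - 1)) := fun i =>
    Ideal.pow_right_mono (Pool.Agent.H737R3.linI_le_mI (P i)) _ (hF i)
  have hpd : p ^ e ≤ d := by
    have h1 := (Pool.Agent.Chud.mem_mI_pow_iff (P ⟨0, hs⟩) hF0 _).1 (hFm ⟨0, hs⟩)
    have h2 := Pool.Agent.Chud.mu_le_totalDegree (P ⟨0, hs⟩) hF0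
    rw [hFd.totalDegree hF0] at h2
    have h3 : p ^ e * 1 ≤ p ^ e * (w ⟨0, hs⟩ + n - 1) := Nat.mul_le_mul_left _ (by omega)
    omega
  have h5 : (fun i => Pool.Agent.H737R3.linI (P i) ^ (w i + n - 1 - (n - 1))) =
      fun i => Pool.Agent.H737R3.linI (P i) ^ (w i) := by
    funext i
    congr 1
    omega
  constructor
  · intro hsq
    have h4 := Pool.Agent.TH308.HHp.sqfreeE p e P hP hn d (fun i => w i + n - 1) F hF0 hFd hpd
      hFm hsq
    simp only [h5] at h4
    exact h4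
  · have h4 := Pool.Agent.TH308.HHp.structE p e P hP hn d (fun i => w i + n - 1) F hF0 hFd hpd hFm
    simp only [h5] at h4
    rcases h4 with h4 | ⟨H, G, ψ, a1, a2, a3, a4, a5, a6⟩
    · exact Or.inl h4
    · refine Or.inr ⟨H, G, ψ, a1, a2, a4, a5, a6, a3, ?_⟩
      obtain ⟨r, hr⟩ := a6
      have hψ : ψ ^ (p ^ e - 1) ≠ 0 := pow_ne_zero _ a4
      have hG0 : G ≠ 0 := by
        rintro rfl
        rw [zero_mul] at hr
        exact hψ hr
      have hr0 : r ≠ 0 := by
        rintro rfl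
        rw [mul_zero] at hr
        exact hψ hr
      have h6 := (a5.pow (p ^ e - 1)).totalDegree hψ
      rw [hr, totalDegree_mul_of_isDomain hG0 hr0] at h6
      rw [mul_comm (p ^ e - 1)]
      omega

end Pool.Agent.Results.MP_22a066_ag.ExceptionalForms
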