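import Mathlib
import Pool.Agent.TH308.HHp.Large2

set_option autoImplicit false

namespace Pool.Agent.Results.MP_22a066_ag.LargeCharacteristic

open MvPolynomial

/-- the homogeneous ideal of the point of projective `n`-space with homogeneous coordinates `q` -/
noncomputable def pointIdeal {k : Type*} [Field k] {n : ℕ} (q : Fin (n + 1) → k) :
    Ideal (MvPolynomial (Fin (n + 1)) k) :=
  Ideal.span (Set.range (fun jl : Fin (n + 1) × Fin (n + 1) =>
    (X jl.1 * C (q jl.2) - X jl.2 * C (q jl.1) : MvPolynomial (Fin (n + 1)) k)))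

/-- **The Harbourne-Huneke containment in characteristic larger than `s t`.** Let `n ≥ 2`,
`t ≥ 1` and let `k` be a field of prime characteristic `p`, and `P 0, …, P (s-1)` points of
projective `n`-space over `k`.
(1) If `p > s t`, then `⋂ I(P i)^(t (m + n - 1)) ⊆ M^t (⋂ I(P i)^m)^t` for every `m`, where `M`
is the ideal generated by the variables, that is, `I^(t (m + n - 1)) ⊆ M^t (I^(m))^t`.
(2) With weights: `⋂ I(P i)^(t (w i + n - 1)) ⊆ M^t (⋂ I(P i)^(w i))^t` if
`∑ j, t (w j + n - 1) < p (w i + n - 1)` for all `i`. -/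
theorem result (k : Type*) [Field k] (p : ℕ) (hp : p.Prime) [CharP k p] (n : ℕ) (hn : 2 ≤ n)
    (s : ℕ) (hs : 0 < s) (P : Fin s → Fin (n + 1) → k) (hP : ∀ i, P i ≠ 0) (t : ℕ) (ht : 0 < t) :
    (s * t < p → ∀ m : ℕ, (⨅ i : Fin s, pointIdeal (P i) ^ (t * (m + n - 1))) ≤
      (Ideal.span (Set.range (fun j : Fin (n + 1) => (X j : MvPolynomial (Fin (n + 1)) k)))) ^ t *
        (⨅ i : Fin s, pointIdeal (P i) ^ m) ^ t) ∧
    (∀ w : Fin s → ℕ, (∀ i, ∑ j, t * (w j + n - 1) < p * (w i + n - 1)) →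
      (⨅ i : Fin s, pointIdeal (P i) ^ (t * (w i + n - 1))) ≤
      (Ideal.span (Set.range (fun j : Fin (n + 1) => (X j : MvPolynomial (Fin (n + 1)) k)))) ^ t *
        (⨅ i : Fin s, pointIdeal (P i) ^ (w i)) ^ t) := by
  have h1 : ∀ i, pointIdeal (P i) = Pool.Agent.H737R3.linI (P i) :=
    fun i => Pool.Agent.H737R3.span_eq_linI (hP i)
  simp only [h1]
  refine ⟨?_, ?_⟩
  · intro hst m
    refine Pool.Agent.TH308.HHp.anyL2 p hp hn hs P hP (fun _ => m) ht fun i => ?_
    rw [Finset.sum_const, Finset.card_univ, Fintype.card_fin, smul_eq_mul, ← mul_assoc]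
    exact Nat.mul_lt_mul_of_pos_right hst (by omega)
  · intro w hw
    exact Pool.Agent.TH308.HHp.anyL2 p hp hn hs P hP w ht hw

end Pool.Agent.Results.MP_22a066_ag.LargeCharacteristic
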