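import Mathlib
import Pool.Agent.TH308.HHp.Desc

set_option autoImplicit false

namespace Pool.Agent.Results.MP_22a066_ag.PowersOfTheCharacteristic

open MvPolynomial

/-- the homogeneous ideal of the point of projective `n`-space with homogeneous coordinates `q` -/
noncomputable def pointIdeal {k : Type*} [Field k] {n : ℕ} (q : Fin (n + 1) → k) :
    Ideal (MvPolynomial (Fin (n + 1)) k) :=
  Ideal.span (Set.range (fun jl : Fin (n + 1) × Fin (n + 1) =>
    (X jl.1 * C (q jl.2) - X jl.2 * C (q jl.1) : MvPolynomial (Fin (n + 1)) k)))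

/-- **The Harbourne-Huneke containment for powers of the characteristic.** Let `k` be a field of
characteristic `p > 0`, `n ≥ 2`, and `t = p ^ e ≤ n + 2`. For points `P 0, …, P (s-1)` of
projective `n`-space over `k` and nonnegative integers `w 0, …, w (s-1)`,
`⋂ I(P i)^(t (w i + n - 1)) ⊆ M^t (⋂ I(P i)^(w i))^t`, where `M` is the ideal generated by the
variables. (For `w i = m` this is `I^(t (m + n - 1)) ⊆ M^t (I^(m))^t`.) -/
theorem result (k : Type*) [Field k] (p : ℕ) (hp : p.Prime) [CharP k p] (n : ℕ) (hn : 2 ≤ n)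
    (e : ℕ) (hpn : p ^ e ≤ n + 2) (s : ℕ) (hs : 0 < s) (P : Fin s → Fin (n + 1) → k)
    (hP : ∀ i, P i ≠ 0) (w : Fin s → ℕ) :
    (⨅ i : Fin s, pointIdeal (P i) ^ (p ^ e * (w i + n - 1))) ≤
      (Ideal.span (Set.range (fun j : Fin (n + 1) => (X j : MvPolynomial (Fin (n + 1)) k)))) ^
          (p ^ e) *
        (⨅ i : Fin s, pointIdeal (P i) ^ (w i)) ^ (p ^ e) := by
  have h1 : ∀ i, pointIdeal (P i) = Pool.Agent.H737R3.linI (P i) :=
    fun i => Pool.Agent.H737R3.span_eq_linI (hP i)
  simp only [h1]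
  exact Pool.Agent.TH308.HHp.any p hp e hpn hn hs P hP w

end Pool.Agent.Results.MP_22a066_ag.PowersOfTheCharacteristic
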